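import Pool.Agent.Y952.ST2.Base

set_option autoImplicit false

/-! # Semi-transitive `k`-critical graphs of girth exactly `g`, for all `k ≥ 4` and all `g ≥ 3` -/

namespace Pool.Agent.Results.MP_2d3ccd_co.AllGirths

open Pool.Agent.W179.Erdos Pool.Agent.W179.ST Pool.Agent.Y952.ST2

/-- `R` is a semi-transitive orientation of `G`: every edge is oriented in exactly one direction,
there is no directed cycle, and whenever a directed path `p 0 → p 1 → ... → p t` with `t ≥ 2` is
shortcut by the edge `p 0 → p t`, all the edges `p i → p j`, `0 ≤ i < j ≤ t`, are present. -/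
def IsSemiTransitiveOrientation {V : Type} (G : SimpleGraph V) (R : V → V → Prop) : Prop :=
  (∀ u v, G.Adj u v ↔ R u v ∨ R v u) ∧ (∀ u v, R u v → ¬ R v u) ∧
  (∀ v, ¬ Relation.TransGen R v v) ∧
  ∀ (t : ℕ) (p : ℕ → V), 2 ≤ t → (∀ i, i < t → R (p i) (p (i + 1))) → R (p 0) (p t) →
    ∀ i j, i < j → j ≤ t → R (p i) (p j)

/-- `G` is semi-transitive: it has a semi-transitive orientation. -/
def IsSemiTransitive {V : Type} (G : SimpleGraph V) : Prop :=
  ∃ R : V → V → Prop, IsSemiTransitiveOrientation G R

/-- `G` is `k`-critical: its chromatic number is `k` and every proper subgraph has a smaller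
chromatic number. -/
def IsCritical {V : Type} (k : ℕ) (G : SimpleGraph V) : Prop :=
  G.chromaticNumber = k ∧ ∀ S : G.Subgraph, S ≠ ⊤ → S.coe.chromaticNumber < k

/-- For every `k ≥ 4`, every `g ≥ 3` and every `N` there is a finite semi-transitive graph with more
than `N` vertices which is `k`-critical (in particular of chromatic number `k`) and has girth exactly
`g`. -/
theorem result : ∀ k g N : ℕ, 4 ≤ k → 3 ≤ g → ∃ (V : Type) (_ : Finite V) (G : SimpleGraph V),
    N < Nat.card V ∧ IsCritical k G ∧ G.girth = g ∧ IsSemiTransitive G := by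
  classical
  intro k g N hk4 hg3
  obtain ⟨a, rfl⟩ : ∃ a, k = a + 1 + 3 := ⟨k - 4, by omega⟩
  set M : ℕ := g + N with hM
  set n : ℕ := 2 * M + 3 with hn
  have hnodd : n % 2 = 1 := by omega
  have hMn : M + 1 < n := by omega
  have hgM : g ≤ M + 2 := by omega
  obtain ⟨V, hV, D, Hf, x, y, hle, hxy, hnD, ⟨φ, hφ⟩, hall, hg⟩ :=
    exists_gadget (a + 1 + 2) (a + 1 + 3 + g) (by omega)
  let B := BG (a + 1) n
  let C := CC (a + 1) n g M
  let G := GG B C C D x y
  have hxne : x ≠ y := hxy.ne
  have hGn : ¬ G.Colorable (a + 1 + 2) :=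
    not_col B C D x y (bg_not_col hnodd (by omega)) hall hxne
  -- a minimal subgraph
  obtain ⟨S, hS, hmin⟩ := (wellFounded_lt (α := G.Subgraph)).has_min
    {S | ¬ S.coe.Colorable (a + 1 + 2)} ⟨⊤, by
      intro h
      apply hGn
      exact h.of_hom ⟨fun v => ⟨v, trivial⟩, fun h => h⟩⟩
  have hS' : ¬ S.coe.Colorable (a + 1 + 2) := hS
  obtain ⟨κ, hκ⟩ := colour_ext B C C D x y (by omega : a + 1 + 2 ≤ a + 1 + 3) φ hφ (sig (a + 1) n)
    (fun i j h => sig_proper hnodd (by omega) (cc_le h))
    (fun i j h _ => sig_proper hnodd (by omega) h)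
  have hcolk : S.coe.Colorable (a + 1 + 3) := ⟨κ.comp S.hom⟩
  have hchi : S.coe.chromaticNumber = ((a + 1 + 3 : ℕ) : ℕ∞) := by
    apply le_antisymm (SimpleGraph.chromaticNumber_le_iff_colorable.mpr hcolk)
    by_contra h
    push Not at h
    apply hS'
    rw [← SimpleGraph.chromaticNumber_le_iff_colorable]
    have e : ((a + 1 + 2 + 1 : ℕ) : ℕ∞) = ((a + 1 + 2 : ℕ) : ℕ∞) + 1 := Nat.cast_add_one _
    rw [show a + 1 + 3 = a + 1 + 2 + 1 from rfl, e] at h
    exact Order.le_of_lt_add_one h
  have hcrit : IsCritical (a + 1 + 3) S.coe := by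
    refine ⟨hchi, fun T hT => ?_⟩
    have h1 : SimpleGraph.Subgraph.coeSubgraph T ≤ S := SimpleGraph.Subgraph.coeSubgraph_le T
    have h2 : SimpleGraph.Subgraph.coeSubgraph T ≠ S := by
      intro h
      apply hT
      have h5 := SimpleGraph.Subgraph.restrict_coeSubgraph T
      rw [h] at h5
      rw [← h5]
      ext a b
      · simp
      · simp only [SimpleGraph.Subgraph.restrict_adj, and_self, SimpleGraph.Subgraph.top_adj]
        rfl
    have h3 : (SimpleGraph.Subgraph.coeSubgraph T).coe.Colorable (a + 1 + 2) := by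
      by_contra h
      exact hmin _ h (lt_of_le_of_ne h1 h2)
    have h6 : T.coe.Colorable (a + 1 + 2) := by
      refine h3.of_hom ⟨fun v => ⟨v.1.1, ⟨v.1, v.2, rfl⟩⟩, ?_⟩
      intro a b hab
      exact ⟨a.1, b.1, hab, rfl, rfl⟩
    refine lt_of_le_of_lt (SimpleGraph.chromaticNumber_le_iff_colorable.mpr h6) ?_
    exact_mod_cast (by omega : a + 1 + 2 < a + 1 + 3)
  -- the edges of `C` belong to `S`
  have hedge : ∀ i j, C.Adj i j → S.Adj (Sum.inl i) (Sum.inl j) := by
    intro i j hij
    by_contra hn
    apply hS'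
    obtain ⟨σ', hσ1⟩ := crit_edge (a := a) hnodd hgM (by omega) hMn hij
    let C' : SimpleGraph (UU (a + 1) n) := C.deleteEdges {s(i, j)}
    obtain ⟨κ', -⟩ := colour_ext B C C' D x y le_rfl φ hφ σ'
      (by
        intro a b hab he
        rw [SimpleGraph.deleteEdges_adj] at hab
        exact hab.2 (hσ1 a b (cc_le hab.1) he))
      (by
        intro a b hab hC he
        rcases Sym2.eq_iff.mp (hσ1 a b hab he) with ⟨rfl, rfl⟩ | ⟨rfl, rfl⟩
        · exact hC hij
        · exact hC hij.symm)
    refine SimpleGraph.Colorable.of_hom (G' := GG B C C' D x y) ⟨fun v => v.1, ?_⟩ ⟨κ'⟩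
    rintro ⟨a, ha⟩ ⟨b, hb⟩ hab
    have hab' : S.Adj a b := hab
    have hG : G.Adj a b := S.adj_sub hab'
    show GAdj B C C' D x y a b
    rcases a with a | ⟨p, w⟩ <;> rcases b with b | ⟨p', w'⟩
    · show C'.Adj a b
      rw [SimpleGraph.deleteEdges_adj]
      refine ⟨hG, ?_⟩
      intro he
      rcases Sym2.eq_iff.mp he with ⟨rfl, rfl⟩ | ⟨rfl, rfl⟩
      · exact hn hab'
      · exact hn hab'.symm
    · exact hG
    · exact hG
    · exact hG
  -- short cycles
  have hshort : ∀ l (f : ℕ → S.verts), FCyc S.coe l f → l ≤ a + 1 + 3 + g →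
      ∃ b : ℕ → UU (a + 1) n, FCyc C l b ∧ ∀ i < l, (f i).1 = Sum.inl (b i) := by
    intro l f h hl
    have h1 : FCyc G l (fun i => (f i).1) :=
      FCyc.map h (fun v => v.1) Subtype.val_injective (fun u v huv => S.adj_sub huv)
    have h2 := short B C C D x y hle hxy hnD hg h1 hl
    have h3 := h.three
    choose b hb using h2
    refine ⟨fun i => if hi : i < l then b i hi else b 0 (by omega), ?_, ?_⟩
    · have key : ∀ i (hi : i < l), (if hi : i < l then b i hi else b 0 (by omega)) = b i hi :=
        fun i hi => dif_pos hi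
      refine ⟨h3, ?_, ?_, ?_⟩
      · intro i hi j hj hij
        rw [key i hi, key j hj] at hij
        apply h1.inj i hi j hj
        show (f i).1 = (f j).1
        rw [hb i hi, hb j hj, hij]
      · intro i hi
        rw [key i (by omega), key (i + 1) hi]
        have h5 := h1.adj i hi
        have h6 : G.Adj (f i).1 (f (i + 1)).1 := h5
        rw [hb i (by omega), hb (i + 1) hi] at h6
        exact h6
      · rw [key (l - 1) (by omega), key 0 (by omega)]
        have h6 : G.Adj (f (l - 1)).1 (f 0).1 := h1.close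
        rw [hb (l - 1) (by omega), hb 0 (by omega)] at h6
        exact h6
    · intro i hi
      rw [hb i hi]
      simp only [dif_pos hi]
  -- vertices
  have hvert : ∀ i (h : i < n), i ≤ M → (Sum.inl (Sum.inr ⟨i, h⟩) : Vtx B C y) ∈ S.verts := by
    intro i h hi
    rcases Nat.eq_zero_or_pos i with rfl | hi0
    · exact S.edge_vert (hedge (Sum.inr ⟨0, h⟩) (Sum.inl 0) ⟨rfl, Or.inl rfl⟩)
    · exact S.edge_vert (hedge (Sum.inr ⟨i, h⟩) (Sum.inr ⟨i - 1, by omega⟩)
        (Or.inr ⟨by show i - 1 + 1 = i; omega, hi⟩))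
  have hvert0 : (Sum.inl (Sum.inl 0) : Vtx B C y) ∈ S.verts :=
    S.edge_vert (hedge (Sum.inl 0) (Sum.inr ⟨0, by omega⟩) ⟨rfl, Or.inl rfl⟩)
  have hcard : N < Nat.card S.verts := by
    have h1 : Function.Injective (fun i : Fin (M + 1) =>
        (⟨Sum.inl (Sum.inr ⟨i.val, by omega⟩), hvert i.val (by omega) (by omega)⟩ : S.verts)) := by
      intro i j hij
      have := congrArg Subtype.val hij
      have := Fin.mk.inj (Sum.inr.inj (Sum.inl.inj this))
      exact Fin.ext this
    have h2 : Nat.card (Fin (M + 1)) ≤ Nat.card S.verts := Nat.card_le_card_of_injective _ h1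
    rw [Nat.card_eq_fintype_card, Fintype.card_fin] at h2
    have h3 : N < M + 1 := by omega
    exact lt_of_lt_of_le h3 h2
  -- girth
  let fc : ℕ → UU (a + 1) n := fun i => if i = 0 then Sum.inl 0 else
    if h : i - 1 < n then Sum.inr ⟨i - 1, h⟩ else Sum.inl 0
  have hfc : FCyc C g fc := by
    apply cc_fcyc hg3 hgM (by omega)
    · simp [fc]
    · intro i h _
      simp [fc, h]
  have hfcv : ∀ i, i < g → (Sum.inl (fc i) : Vtx B C y) ∈ S.verts := by
    intro i hi
    rcases Nat.eq_zero_or_pos i with rfl | hi0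
    · simpa [fc] using hvert0
    · have h1 : i - 1 < n := by omega
      have h2 : i ≠ 0 := by omega
      simp only [fc, h2, if_false, dif_pos h1]
      exact hvert (i - 1) h1 (by omega)
  have hcyc : FCyc S.coe g (fun i => if h : i < g then (⟨Sum.inl (fc i), hfcv i h⟩ : S.verts)
      else ⟨Sum.inl (Sum.inl 0), hvert0⟩) := by
    refine ⟨by omega, ?_, ?_, ?_⟩
    · intro i hi j hj hij
      simp only [dif_pos hi, dif_pos hj, Subtype.mk.injEq, Sum.inl.injEq] at hij
      exact hfc.inj i hi j hj hij
    · intro i hi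
      have h1 := hfc.adj i hi
      simp only [dif_pos (show i < g by omega), dif_pos hi]
      exact hedge _ _ h1
    · have h1 := hfc.close
      simp only [dif_pos (show g - 1 < g by omega), dif_pos (show 0 < g by omega)]
      exact hedge _ _ h1
  obtain ⟨u, w, hw, hwl⟩ := walk_of_fcyc hcyc
  have hlower : ∀ (a : S.verts) (w : S.coe.Walk a a), w.IsCycle → g ≤ w.length := by
    intro a w hw
    by_contra h
    push Not at h
    obtain ⟨a', ha', -⟩ := hshort _ _ (fcyc_of_walk w hw) (by omega)
    have := cc_long ha'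
    omega
  have hgirth : S.coe.girth = g := by
    have h1 : S.coe.egirth = (g : ℕ∞) := by
      apply le_antisymm
      · have := SimpleGraph.egirth_le_length hw
        rwa [hwl] at this
      · rw [SimpleGraph.le_egirth]
        intro a w hw
        exact_mod_cast hlower a w hw
    rw [SimpleGraph.girth, h1]
    rfl
  -- the orientation
  refine ⟨S.verts, inferInstance, S.coe, hcard, hcrit, hgirth,
    fun u v => S.coe.Adj u v ∧ κ u.1 < κ v.1, ?_, ?_, ?_, ?_⟩
  · intro u v
    constructor
    · intro h
      have hne : κ u.1 ≠ κ v.1 := κ.valid (S.adj_sub h)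
      rcases lt_or_gt_of_ne hne with h1 | h1
      · exact Or.inl ⟨h, h1⟩
      · exact Or.inr ⟨h.symm, h1⟩
    · rintro (h | h)
      · exact h.1
      · exact h.1.symm
  · intro u v h h'
    exact lt_asymm h.2 h'.2
  · intro v hv
    have key : ∀ a b : S.verts, Relation.TransGen (fun u v => S.coe.Adj u v ∧ κ u.1 < κ v.1) a b →
        κ a.1 < κ b.1 := by
      intro a b h
      induction h with
      | single h => exact h.2
      | tail _ h ih => exact ih.trans h.2
    exact lt_irrefl _ (key v v hv)
  · intro t p ht hp h0t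
    have hmono : ∀ i j, i < j → j ≤ t → κ (p i).1 < κ (p j).1 := by
      intro i j hij
      induction j with
      | zero => omega
      | succ j ih =>
        intro hj
        have h1 := (hp j (by omega)).2
        rcases Nat.lt_or_ge i j with h2 | h2
        · exact (ih h2 (by omega)).trans h1
        · have : i = j := by omega
          rw [this]; exact h1
    have hval : ∀ i ≤ t, i ≤ (κ (p i).1).val := by
      intro i
      induction i with
      | zero => intro _; exact Nat.zero_le _
      | succ i ih =>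
        intro hi
        have h1 : (κ (p i).1).val < (κ (p (i + 1)).1).val := hmono i (i + 1) (by omega) hi
        have := ih (by omega)
        omega
    have htk : t + 1 ≤ a + 1 + 3 := by
      have h1 := hval t le_rfl
      have h2 := (κ (p t).1).isLt
      omega
    have hf : FCyc S.coe (t + 1) p := by
      refine ⟨by omega, ?_, ?_, ?_⟩
      · intro i hi j hj hij
        rcases lt_trichotomy i j with h | h | h
        · have := hmono i j h (by omega)
          rw [hij] at this
          exact absurd this (lt_irrefl _)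
        · exact h
        · have := hmono j i h (by omega)
          rw [hij] at this
          exact absurd this (lt_irrefl _)
      · intro i hi
        exact (hp i (by omega)).1
      · exact h0t.1.symm
    obtain ⟨b, hb, hpb⟩ := hshort _ _ hf (by omega)
    have hσp : ∀ i ≤ t, κ (p i).1 = sig (a + 1) n (b i) := by
      intro i hi
      rw [hpb i (by omega), hκ]
    -- three colours
    have h3c : ∀ i ≤ t, (κ (p i).1).val = 0 ∨ (κ (p i).1).val = 1 ∨ (κ (p i).1).val = 3 := by
      intro i hi
      rw [hσp i hi]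
      rcases Nat.lt_or_ge i t with h | h
      · exact sig_cc hgM (by omega) hMn (hb.adj i (by omega))
      · have h1 : i = t := by omega
        have h2 := hb.close
        rw [h1]
        exact sig_cc hgM (by omega) hMn h2
    have ht2 : t = 2 := by
      by_contra hne
      have h0 := h3c 0 (by omega)
      have h1 := h3c 1 (by omega)
      have h2 := h3c 2 (by omega)
      have h3 := h3c 3 (by omega)
      have m1 : (κ (p 0).1).val < (κ (p 1).1).val := hmono 0 1 (by omega) (by omega)
      have m2 : (κ (p 1).1).val < (κ (p 2).1).val := hmono 1 2 (by omega) (by omega)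
      have m3 : (κ (p 2).1).val < (κ (p 3).1).val := hmono 2 3 (by omega) (by omega)
      omega
    subst ht2
    intro i j hij hj
    have hcases : (i = 0 ∧ j = 1) ∨ (i = 1 ∧ j = 2) ∨ (i = 0 ∧ j = 2) := by omega
    rcases hcases with ⟨rfl, rfl⟩ | ⟨rfl, rfl⟩ | ⟨rfl, rfl⟩
    · exact hp 0 (by omega)
    · exact hp 1 (by omega)
    · exact h0t

end Pool.Agent.Results.MP_2d3ccd_co.AllGirths
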